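import Mathlib
import Pool.Agent.V1149.BT.Near

set_option autoImplicit false

/-!
# MP_0d3379_co: bipartite graphs

`IsTotalColoring G c d` (from `Pool.Agent.V1149.BT.Ext`) says that the colours `c` of the vertices
and `d` of the edges form a total colouring of `G`: adjacent vertices get different colours,
distinct edges with a common end get different colours, and an edge gets a colour different from
the colours of its ends.

The theorem: let `G` be a finite bipartite simple graph, `S` any set of vertices and `H` any
subgraph of `G`. Suppose that the vertices of `S` and the edges of `H` are coloured with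
`k ≥ Δ(G) + Δ(H) + 2` colours so that vertices of `S` adjacent in `G`, edges of `H` with a common
end, and edges of `H` and their ends in `S` get different colours. Then this colouring extends to a
total colouring of `G` with the same `k` colours.

If `H` is a matching and `S` is the set of its ends, then `Δ(H) ≤ 1` and `k = Δ(G) + 3` colours
suffice: this is the statement of Q1 for all bipartite graphs.
-/

namespace Pool.Agent.Results.MP_0d3379_co.BipartiteGraphs

open Pool.Agent.V1149.BT

theorem result (V : Type) [Fintype V] (G H : SimpleGraph V) [DecidableRel G.Adj]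
    [DecidableRel H.Adj] (k : ℕ)
    -- `G` is bipartite
    (hG : G.Colorable 2)
    -- `H` is a subgraph of `G`
    (hH : H ≤ G)
    -- the number of colours
    (hk : G.maxDegree + H.maxDegree + 2 ≤ k)
    -- the colouring of the vertices of `S` and of the edges of `H`
    (S : Set V) (c₀ : V → Fin k) (d₀ : Sym2 V → Fin k)
    (h₁ : ∀ a ∈ S, ∀ b ∈ S, G.Adj a b → c₀ a ≠ c₀ b)
    (h₂ : ∀ a b b', H.Adj a b → H.Adj a b' → b ≠ b' → d₀ s(a, b) ≠ d₀ s(a, b'))
    (h₃ : ∀ a ∈ S, ∀ b, H.Adj a b → d₀ s(a, b) ≠ c₀ a) :
    ∃ (c : V → Fin k) (d : Sym2 V → Fin k), IsTotalColoring G c d ∧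
      (∀ a ∈ S, c a = c₀ a) ∧ ∀ a b, H.Adj a b → d s(a, b) = d₀ s(a, b) := by
  obtain ⟨col⟩ := hG
  refine near G H (fun v => col v = 0) ?_ k ?_ (fun a b h => hH h) S c₀ d₀ h₁ h₂ h₃
  · intro a b hab
    have hne := col.valid hab
    constructor
    · intro ha hb
      exact hne (ha.trans hb.symm)
    · intro hb
      by_contra ha
      apply hne
      have h1 : ∀ t : Fin 2, t ≠ 0 → t = 1 := by decide
      exact (h1 _ ha).trans (h1 _ hb).symm
  · intro v w
    refine le_trans (Nat.add_le_add_right (Nat.add_le_add ?_ ?_) 2) hk
    · refine le_trans (le_of_eq ?_) (G.degree_le_maxDegree v)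
      rw [← SimpleGraph.card_neighborFinset_eq_degree, SimpleGraph.neighborFinset_eq_filter]
      congr!
    · refine le_trans (le_of_eq ?_) (H.degree_le_maxDegree w)
      rw [← SimpleGraph.card_neighborFinset_eq_degree, SimpleGraph.neighborFinset_eq_filter]
      congr!

end Pool.Agent.Results.MP_0d3379_co.BipartiteGraphs
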