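import Mathlib
import Pool.Agent.V1149.SP.Fin

set_option autoImplicit false

/-!
# MP_0d3379_co: sparse graphs, in particular planar graphs with `Δ ≥ 17`

`IsTotalColoring G c d` (from `Pool.Agent.V1149.BT.Ext`) says that the colours `c` of the vertices
and `d` of the edges form a total colouring of `G`: adjacent vertices get different colours,
distinct edges with a common end get different colours, and an edge gets a colour different from
the colours of its ends.

The theorem: let `m ≥ 2` and let `G` be a finite simple graph in which every nonempty set of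
vertices spans an induced subgraph of average degree less than `m`. Let `S` be any set of vertices
and `H` any subgraph of `G`, and suppose that the vertices of `S` and the edges of `H` are coloured
with `k` colours so that vertices of `S` adjacent in `G`, edges of `H` with a common end, and edges
of `H` and their ends in `S` get different colours. If `k ≥ Δ(G) + Δ(H) + 2` and
`2 k ≥ m² - m + 6 + 4 Δ(H)`, then this colouring extends to a total colouring of `G` with the same
`k` colours.

If `H` is a matching and `S` is the set of its ends, then `k = Δ(G) + 3` colours suffice when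
`2 Δ(G) ≥ m² - m + 4`: this is the statement of Q1 for these graphs. For planar graphs `m = 6`
and the condition is `Δ(G) ≥ 17`.
-/

namespace Pool.Agent.Results.MP_0d3379_co.SparseGraphs

open Pool.Agent.V1149.BT

theorem result (V : Type) [Fintype V] (G H : SimpleGraph V) [DecidableRel G.Adj]
    [DecidableRel H.Adj] (m k : ℕ) (hm : 2 ≤ m)
    -- all nonempty induced subgraphs have average degree less than `m`
    (hmad : ∀ X : Finset V, X.Nonempty →
      ∑ v ∈ X, (X.filter (fun w => G.Adj v w)).card < m * X.card)
    -- `H` is a subgraph of `G`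
    (hH : H ≤ G)
    -- the number of colours
    (hk₁ : G.maxDegree + H.maxDegree + 2 ≤ k)
    (hk₂ : m ^ 2 + 6 + 4 * H.maxDegree ≤ 2 * k + m)
    -- the colouring of the vertices of `S` and of the edges of `H`
    (S : Set V) (c₀ : V → Fin k) (d₀ : Sym2 V → Fin k)
    (h₁ : ∀ a ∈ S, ∀ b ∈ S, G.Adj a b → c₀ a ≠ c₀ b)
    (h₂ : ∀ a b b', H.Adj a b → H.Adj a b' → b ≠ b' → d₀ s(a, b) ≠ d₀ s(a, b'))
    (h₃ : ∀ a ∈ S, ∀ b, H.Adj a b → d₀ s(a, b) ≠ c₀ a) :
    ∃ (c : V → Fin k) (d : Sym2 V → Fin k), IsTotalColoring G c d ∧
      (∀ a ∈ S, c a = c₀ a) ∧ ∀ a b, H.Adj a b → d s(a, b) = d₀ s(a, b) := by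
  have hdg : ∀ (K : SimpleGraph V) [DecidableRel K.Adj] (v : V),
      Pool.Agent.V1126.TC.dg K v ≤ K.maxDegree := by
    intro K _ v
    refine le_trans (le_of_eq ?_) (K.degree_le_maxDegree v)
    unfold Pool.Agent.V1126.TC.dg
    rw [← SimpleGraph.card_neighborFinset_eq_degree, SimpleGraph.neighborFinset_eq_filter]
    congr!
  refine Pool.Agent.V1149.SP.sparse G H m k H.maxDegree hm ?_ (fun a b h => hH h)
    (fun v => hdg H v) ?_ ?_ S c₀ d₀ h₁ h₂ h₃
  · intro X hX
    refine lt_of_le_of_lt (le_of_eq (Finset.sum_congr rfl fun v _ => ?_)) (hmad X hX)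
    congr
  · intro v
    have := hdg G v
    omega
  · rw [pow_two] at hk₂
    exact hk₂

end Pool.Agent.Results.MP_0d3379_co.SparseGraphs
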